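import Pool.Agent.Helper71.SN.Goals

namespace Pool.Agent.Helper71.SN.PkQONE

open Pool.Agent.Helper71.SN Pool.Agent.Helper39.Net

lemma dOne_eq {d : ℕ} (z z' : Pt d) (h : ∀ c, z c ≤ z' c) :
    dOne (qOne z) (qOne z') = ∑ c, ((z' c : ℝ) - z c) := by
  unfold dOne qOne
  refine Finset.sum_congr rfl fun c _ => ?_
  have : (z c : ℝ) ≤ z' c := by exact_mod_cast h c
  rw [abs_sub_comm, abs_of_nonneg (by linarith)]

lemma le_dOne {d : ℕ} (z z' : Pt d) : ∑ c, ((z' c : ℝ) - z c) ≤ dOne (qOne z) (qOne z') := by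
  unfold dOne qOne
  refine Finset.sum_le_sum fun c _ => ?_
  rw [abs_sub_comm]
  exact le_abs_self _

lemma lt_dOne {d : ℕ} (z z' : Pt d) (h : ∃ c, z' c < z c) :
    ∑ c, ((z' c : ℝ) - z c) + 1 ≤ dOne (qOne z) (qOne z') := by
  obtain ⟨c0, hc0⟩ := h
  unfold dOne qOne
  rw [← Finset.add_sum_erase _ _ (Finset.mem_univ c0),
    ← Finset.add_sum_erase Finset.univ (fun c => |(z c : ℝ) - z' c|) (Finset.mem_univ c0)]
  have h1 : ∑ c ∈ Finset.univ.erase c0, ((z' c : ℝ) - z c) ≤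
      ∑ c ∈ Finset.univ.erase c0, |(z c : ℝ) - z' c| := by
    refine Finset.sum_le_sum fun c _ => ?_
    rw [abs_sub_comm]
    exact le_abs_self _
  have h2 : (z' c0 : ℝ) + 1 ≤ z c0 := by exact_mod_cast hc0
  have h3 : (z c0 : ℝ) - z' c0 ≤ |(z c0 : ℝ) - z' c0| := le_abs_self _
  linarith

theorem thm : G_QONE := by
  intro d B x y x' y' hx hy
  have hle : ∀ z z' : Pt d, (z = z' ∨ ∀ c, z c < z' c) → ∀ c, z c ≤ z' c := by
    intro z z' h c
    rcases h with h | h
    · rw [h]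
    · exact (h c).le
  constructor
  · intro h
    rw [dOne_eq x y (hle x y h)]
    have : ∑ c, ((y c : ℝ) - x c) ≤ ∑ _c : Fin d, (B : ℝ) := by
      refine Finset.sum_le_sum fun c _ => ?_
      have h1 : (y c : ℝ) ≤ B := by exact_mod_cast (hy c).le
      have h2 : (0 : ℝ) ≤ x c := Nat.cast_nonneg _
      linarith
    simpa using this
  · intro h h' hn
    rw [dOne_eq x y (hle x y h), dOne_eq x' y' (hle x' y' h')]
    have e : ∑ c, ((y c : ℝ) - x c) + ∑ c, ((y' c : ℝ) - x' c) =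
        ∑ c, ((y' c : ℝ) - x c) + ∑ c, ((y c : ℝ) - x' c) := by
      rw [← Finset.sum_add_distrib, ← Finset.sum_add_distrib]
      refine Finset.sum_congr rfl fun c _ => ?_
      ring
    rw [e]
    by_cases h1 : ∀ c, x c ≤ y' c
    · have h2 : ¬ ∀ c, x' c ≤ y c := fun h2 => hn ⟨h1, h2⟩
      push Not at h2
      have h3 := lt_dOne x' y h2
      have h4 := le_dOne x y'
      linarith
    · push Not at h1
      have h3 := lt_dOne x y' h1
      have h4 := le_dOne x' y
      linarith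

end Pool.Agent.Helper71.SN.PkQONE
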